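import Pool.Agent.Helper89.Vol5.Goals

/-!
# MP_cd13d2_co, `V(5,8)`, packet FINb: the sign patterns with five or seven blocks
-/

set_option autoImplicit false

namespace Pool.Agent.Helper76.Vol5.PkFINb

open Pool.Agent.Helper89.Vol5 Pool.Agent.Helper86.Poly

/-- the coordinates of a vector -/
noncomputable def row (u : E 5) : Fin 5 → ℝ := fun i => u i

theorem row_sub (u v : E 5) : row (u - v) = row u - row v := rfl

/-- the rows of the determinant -/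
noncomputable def A (u v w z t : E 5) : Fin 5 → (Fin 5 → ℝ) := ![row u, row v, row w, row z, row t]

theorem dt_eq (u v w z t : E 5) : dt u v w z t = Matrix.detRowAlternating (A u v w z t) := by
  unfold dt
  change Matrix.det _ = Matrix.det (A u v w z t)
  refine congrArg Matrix.det ?_
  ext i j
  fin_cases i <;> fin_cases j <;> rfl

theorem up2 (a b c d e x : E 5) : A a x c d e = Function.update (A a b c d e) 1 (row x) := by
  unfold A
  funext i
  fin_cases i <;> rfl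

theorem up3 (a b c d e x : E 5) : A a b x d e = Function.update (A a b c d e) 2 (row x) := by
  unfold A
  funext i
  fin_cases i <;> rfl

theorem sub2 (a b b' c d e : E 5) : dt a (b - b') c d e = dt a b c d e - dt a b' c d e := by
  rw [dt_eq, dt_eq, dt_eq, up2 a b c d e (b - b'), up2 a b c d e b', row_sub,
    AlternatingMap.map_update_sub, ← up2 a b c d e b, ← up2 a b c d e b']

theorem sub3 (a b c c' d e : E 5) : dt a b (c - c') d e = dt a b c d e - dt a b c' d e := by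
  rw [dt_eq, dt_eq, dt_eq, up3 a b c d e (c - c'), up3 a b c d e c', row_sub,
    AlternatingMap.map_update_sub, ← up3 a b c d e c, ← up3 a b c d e c']

theorem sw12 (a b c d e : E 5) : dt a b c d e = -dt b a c d e := by
  rw [dt_eq, dt_eq, ← AlternatingMap.map_swap Matrix.detRowAlternating (A b a c d e) (i := 0) (j := 1) (by decide)]
  refine congrArg Matrix.detRowAlternating ?_
  funext k
  fin_cases k <;> rfl

theorem sw23 (a b c d e : E 5) : dt a b c d e = -dt a c b d e := by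
  rw [dt_eq, dt_eq, ← AlternatingMap.map_swap Matrix.detRowAlternating (A a c b d e) (i := 1) (j := 2) (by decide)]
  refine congrArg Matrix.detRowAlternating ?_
  funext k
  fin_cases k <;> rfl

theorem sw34 (a b c d e : E 5) : dt a b c d e = -dt a b d c e := by
  rw [dt_eq, dt_eq, ← AlternatingMap.map_swap Matrix.detRowAlternating (A a b d c e) (i := 2) (j := 3) (by decide)]
  refine congrArg Matrix.detRowAlternating ?_
  funext k
  fin_cases k <;> rfl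

theorem sw45 (a b c d e : E 5) : dt a b c d e = -dt a b c e d := by
  rw [dt_eq, dt_eq, ← AlternatingMap.map_swap Matrix.detRowAlternating (A a b c e d) (i := 3) (j := 4) (by decide)]
  refine congrArg Matrix.detRowAlternating ?_
  funext k
  fin_cases k <;> rfl

theorem z12 (a b c d : E 5) : dt a a b c d = 0 := by
  have h := sw12 a a b c d
  linarith

theorem z23 (a b c d : E 5) : dt a b b c d = 0 := by
  have h := sw23 a b b c d
  linarith

theorem z34 (a b c d : E 5) : dt a b c c d = 0 := by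
  have h := sw34 a b c c d
  linarith

theorem z45 (a b c d : E 5) : dt a b c d d = 0 := by
  have h := sw45 a b c d d
  linarith

theorem p_acebd (a b c d e : E 5) : dt a c e b d = -dt a b c d e := by
  rw [sw34 a c e b d, sw23 a c b e d, sw45 a b c e d]
  simp only [neg_neg]

theorem p_acdbd (a b c d : E 5) : dt a c d b d = 0 := by
  rw [sw34 a c d b d, z45 a c b d]
  simp only [neg_zero]

theorem p_abebd (a b d e : E 5) : dt a b e b d = 0 := by
  rw [sw34 a b e b d, z23 a b e d]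
  simp only [neg_zero]

theorem p_abdbd (a b d : E 5) : dt a b d b d = 0 := by
  rw [sw34 a b d b d, z23 a b d d]
  simp only [neg_zero]

theorem p_acedf (a c d e f : E 5) : dt a c e d f = -dt a c d e f := by
  rw [sw34 a c e d f]

theorem p_acddf (a c d f : E 5) : dt a c d d f = 0 := by
  rw [z34 a c d f]

theorem p_abedf (a b d e f : E 5) : dt a b e d f = -dt a b d e f := by
  rw [sw34 a b e d f]

theorem p_abddf (a b d f : E 5) : dt a b d d f = 0 := by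
  rw [z34 a b d f]

theorem i222 (a b c d e f g : E 5) :
    dt a (c - b) (e - d) b d + dt a (c - b) (e - d) d f + dt a (c - b) (e - d) f g =
      -dt a b c d e + dt a b d e f + dt a b d f g - dt a b e f g - dt a c d e f - dt a c d f g + dt a c e f g := by
  rw [sub2, sub2, sub2, sub3, sub3, sub3, sub3, sub3, sub3, p_acebd a b c d e, p_acdbd a b c d, p_abebd a b d e, p_abdbd a b d, p_acedf a c d e f, p_acddf a c d f, p_abedf a b d e f, p_abddf a b d f]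
  ring

theorem p_abdce (a b c d e : E 5) : dt a b d c e = -dt a b c d e := by
  rw [sw34 a b d c e]

theorem p_abcce (a b c e : E 5) : dt a b c c e = 0 := by
  rw [z34 a b c e]

theorem i32 (a b c d e f g : E 5) :
    dt a b (d - c) c e + dt a b (d - c) e f + dt a b (d - c) f g =
      -dt a b c d e - dt a b c e f - dt a b c f g + dt a b d e f + dt a b d f g := by
  rw [sub3, sub3, sub3, p_abdce a b c d e, p_abcce a b c e]
  ring

theorem p_abecd (a b c d e : E 5) : dt a b e c d = dt a b c d e := by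
  rw [sw34 a b e c d, sw45 a b c e d]
  simp only [neg_neg]

theorem p_abdcd (a b c d : E 5) : dt a b d c d = 0 := by
  rw [sw34 a b d c d, z45 a b c d]
  simp only [neg_zero]

theorem i312 (a b c d e f g : E 5) :
    dt a b (e - d) c d + dt a b (e - d) d f + dt a b (e - d) f g =
      dt a b c d e - dt a b d e f - dt a b d f g + dt a b e f g := by
  rw [sub3, sub3, sub3, p_abecd a b c d e, p_abdcd a b c d, p_abedf a b d e f, p_abddf a b d f]
  ring

theorem p_acfbd (a b c d f : E 5) : dt a c f b d = -dt a b c d f := by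
  rw [sw34 a c f b d, sw23 a c b f d, sw45 a b c f d]
  simp only [neg_neg]

theorem p_abfbd (a b d f : E 5) : dt a b f b d = 0 := by
  rw [sw34 a b f b d, z23 a b f d]
  simp only [neg_zero]

theorem p_acfde (a c d e f : E 5) : dt a c f d e = dt a c d e f := by
  rw [sw34 a c f d e, sw45 a c d f e]
  simp only [neg_neg]

theorem p_acede (a c d e : E 5) : dt a c e d e = 0 := by
  rw [sw34 a c e d e, z45 a c d e]
  simp only [neg_zero]

theorem p_abfde (a b d e f : E 5) : dt a b f d e = dt a b d e f := by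
  rw [sw34 a b f d e, sw45 a b d f e]
  simp only [neg_neg]

theorem p_abede (a b d e : E 5) : dt a b e d e = 0 := by
  rw [sw34 a b e d e, z45 a b d e]
  simp only [neg_zero]

theorem p_acfeg (a c e f g : E 5) : dt a c f e g = -dt a c e f g := by
  rw [sw34 a c f e g]

theorem p_aceeg (a c e g : E 5) : dt a c e e g = 0 := by
  rw [z34 a c e g]

theorem p_abfeg (a b e f g : E 5) : dt a b f e g = -dt a b e f g := by
  rw [sw34 a b f e g]

theorem p_abeeg (a b e g : E 5) : dt a b e e g = 0 := by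
  rw [z34 a b e g]

theorem i2212 (a b c d e f g : E 5) :
    dt a (c - b) (f - e) b d + dt a (c - b) (f - e) d e + dt a (c - b) (f - e) e g =
      dt a b c d e - dt a b c d f - dt a b d e f + dt a b e f g + dt a c d e f - dt a c e f g := by
  rw [sub2, sub2, sub2, sub3, sub3, sub3, sub3, sub3, sub3, p_acfbd a b c d f, p_acebd a b c d e, p_abfbd a b d f, p_abebd a b d e, p_acfde a c d e f, p_acede a c d e, p_abfde a b d e f, p_abede a b d e, p_acfeg a c e f g, p_aceeg a c e g, p_abfeg a b e f g, p_abeeg a b e g]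
  ring

theorem p_abgfe (a b e f g : E 5) : dt a b g f e = -dt a b e f g := by
  rw [sw34 a b g f e, sw45 a b f g e, sw34 a b f e g]
  simp only [neg_neg]

theorem p_abffe (a b e f : E 5) : dt a b f f e = 0 := by
  rw [z34 a b f e]

theorem p_abged (a b d e g : E 5) : dt a b g e d = -dt a b d e g := by
  rw [sw34 a b g e d, sw45 a b e g d, sw34 a b e d g]
  simp only [neg_neg]

theorem p_abfed (a b d e f : E 5) : dt a b f e d = -dt a b d e f := by
  rw [sw34 a b f e d, sw45 a b e f d, sw34 a b e d f]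
  simp only [neg_neg]

theorem p_abgdc (a b c d g : E 5) : dt a b g d c = -dt a b c d g := by
  rw [sw34 a b g d c, sw45 a b d g c, sw34 a b d c g]
  simp only [neg_neg]

theorem p_abfdc (a b c d f : E 5) : dt a b f d c = -dt a b c d f := by
  rw [sw34 a b f d c, sw45 a b d f c, sw34 a b d c f]
  simp only [neg_neg]

theorem i32t (a b c d e f g : E 5) :
    dt a b (g - f) f e + dt a b (g - f) e d + dt a b (g - f) d c =
      dt a b c d f - dt a b c d g + dt a b d e f - dt a b d e g - dt a b e f g := by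
  rw [sub3, sub3, sub3, p_abgfe a b e f g, p_abffe a b e f, p_abged a b d e g, p_abfed a b d e f, p_abgdc a b c d g, p_abfdc a b c d f]
  ring

theorem p_abfge (a b e f g : E 5) : dt a b f g e = dt a b e f g := by
  rw [sw45 a b f g e, sw34 a b f e g]
  simp only [neg_neg]

theorem p_abege (a b e g : E 5) : dt a b e g e = 0 := by
  rw [sw45 a b e g e, z34 a b e g]
  simp only [neg_zero]

theorem p_abeed (a b d e : E 5) : dt a b e e d = 0 := by
  rw [z34 a b e d]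

theorem p_abedc (a b c d e : E 5) : dt a b e d c = -dt a b c d e := by
  rw [sw34 a b e d c, sw45 a b d e c, sw34 a b d c e]
  simp only [neg_neg]

theorem i312t (a b c d e f g : E 5) :
    dt a b (f - e) g e + dt a b (f - e) e d + dt a b (f - e) d c =
      dt a b c d e - dt a b c d f - dt a b d e f + dt a b e f g := by
  rw [sub3, sub3, sub3, p_abfge a b e f g, p_abege a b e g, p_abfed a b d e f, p_abeed a b d e, p_abfdc a b c d f, p_abedc a b c d e]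
  ring

theorem sumT (y : Fin 8 → E 5) (c : ℝ) (s : Fin 8 → ℝ) : T y c s =
      ((if s 2 = 1 ∧ s 1 = -1 then c * Dt y 2 1 else 0)) +
      ((if s 3 = 1 ∧ s 1 = -1 then c * Dt y 3 1 else 0) + (if s 3 = 1 ∧ s 2 = -1 then c * Dt y 3 2 else 0)) +
      ((if s 4 = 1 ∧ s 1 = -1 then c * Dt y 4 1 else 0) + (if s 4 = 1 ∧ s 2 = -1 then c * Dt y 4 2 else 0) + (if s 4 = 1 ∧ s 3 = -1 then c * Dt y 4 3 else 0)) +
      ((if s 5 = 1 ∧ s 1 = -1 then c * Dt y 5 1 else 0) + (if s 5 = 1 ∧ s 2 = -1 then c * Dt y 5 2 else 0) + (if s 5 = 1 ∧ s 3 = -1 then c * Dt y 5 3 else 0) + (if s 5 = 1 ∧ s 4 = -1 then c * Dt y 5 4 else 0)) +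
      ((if s 6 = 1 ∧ s 1 = -1 then c * Dt y 6 1 else 0) + (if s 6 = 1 ∧ s 2 = -1 then c * Dt y 6 2 else 0) + (if s 6 = 1 ∧ s 3 = -1 then c * Dt y 6 3 else 0) + (if s 6 = 1 ∧ s 4 = -1 then c * Dt y 6 4 else 0) + (if s 6 = 1 ∧ s 5 = -1 then c * Dt y 6 5 else 0)) +
      ((if s 7 = 1 ∧ s 1 = -1 then c * Dt y 7 1 else 0) + (if s 7 = 1 ∧ s 2 = -1 then c * Dt y 7 2 else 0) + (if s 7 = 1 ∧ s 3 = -1 then c * Dt y 7 3 else 0) + (if s 7 = 1 ∧ s 4 = -1 then c * Dt y 7 4 else 0) + (if s 7 = 1 ∧ s 5 = -1 then c * Dt y 7 5 else 0) + (if s 7 = 1 ∧ s 6 = -1 then c * Dt y 7 6 else 0)) := by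
  unfold T
  simp only [Fin.sum_univ_eight]
  have f1 : ∀ m n : Fin 8, ¬ (n < m ∧ 1 ≤ n) →
      (if n < m ∧ 1 ≤ n ∧ s m = 1 ∧ s n = -1 then c * Dt y m n else 0) = 0 := fun m n h =>
    if_neg fun h' => h ⟨h'.1, h'.2.1⟩
  have f2 : ∀ m n : Fin 8, (n < m ∧ 1 ≤ n) →
      (if n < m ∧ 1 ≤ n ∧ s m = 1 ∧ s n = -1 then c * Dt y m n else 0) =
        if s m = 1 ∧ s n = -1 then c * Dt y m n else 0 := fun m n h => by
    simp [h.1, h.2]
  simp only [
    f1 0 0 (by decide), f1 0 1 (by decide), f1 0 2 (by decide), f1 0 3 (by decide),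
    f1 0 4 (by decide), f1 0 5 (by decide), f1 0 6 (by decide), f1 0 7 (by decide),
    f1 1 0 (by decide), f1 1 1 (by decide), f1 1 2 (by decide), f1 1 3 (by decide),
    f1 1 4 (by decide), f1 1 5 (by decide), f1 1 6 (by decide), f1 1 7 (by decide),
    f1 2 0 (by decide), f2 2 1 (by decide), f1 2 2 (by decide), f1 2 3 (by decide),
    f1 2 4 (by decide), f1 2 5 (by decide), f1 2 6 (by decide), f1 2 7 (by decide),
    f1 3 0 (by decide), f2 3 1 (by decide), f2 3 2 (by decide), f1 3 3 (by decide),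
    f1 3 4 (by decide), f1 3 5 (by decide), f1 3 6 (by decide), f1 3 7 (by decide),
    f1 4 0 (by decide), f2 4 1 (by decide), f2 4 2 (by decide), f2 4 3 (by decide),
    f1 4 4 (by decide), f1 4 5 (by decide), f1 4 6 (by decide), f1 4 7 (by decide),
    f1 5 0 (by decide), f2 5 1 (by decide), f2 5 2 (by decide), f2 5 3 (by decide),
    f2 5 4 (by decide), f1 5 5 (by decide), f1 5 6 (by decide), f1 5 7 (by decide),
    f1 6 0 (by decide), f2 6 1 (by decide), f2 6 2 (by decide), f2 6 3 (by decide),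
    f2 6 4 (by decide), f2 6 5 (by decide), f1 6 6 (by decide), f1 6 7 (by decide),
    f1 7 0 (by decide), f2 7 1 (by decide), f2 7 2 (by decide), f2 7 3 (by decide),
    f2 7 4 (by decide), f2 7 5 (by decide), f2 7 6 (by decide), f1 7 7 (by decide)]
  ring

theorem vals (s : Fin 8 → ℝ) (h : s ∈ PLb) :
    (s 1 = 1 ∧ s 2 = -1 ∧ s 3 = -1 ∧ s 4 = 1 ∧ s 5 = 1 ∧ s 6 = -1 ∧ s 7 = 1) ∨
    (s 1 = 1 ∧ s 2 = 1 ∧ s 3 = 1 ∧ s 4 = -1 ∧ s 5 = 1 ∧ s 6 = -1 ∧ s 7 = 1) ∨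
    (s 1 = 1 ∧ s 2 = 1 ∧ s 3 = -1 ∧ s 4 = -1 ∧ s 5 = 1 ∧ s 6 = -1 ∧ s 7 = 1) ∨
    (s 1 = 1 ∧ s 2 = 1 ∧ s 3 = -1 ∧ s 4 = 1 ∧ s 5 = 1 ∧ s 6 = -1 ∧ s 7 = 1) ∨
    (s 1 = 1 ∧ s 2 = 1 ∧ s 3 = -1 ∧ s 4 = 1 ∧ s 5 = -1 ∧ s 6 = -1 ∧ s 7 = 1) ∨
    (s 1 = 1 ∧ s 2 = 1 ∧ s 3 = -1 ∧ s 4 = 1 ∧ s 5 = -1 ∧ s 6 = 1 ∧ s 7 = 1) ∨
    (s 1 = 1 ∧ s 2 = -1 ∧ s 3 = -1 ∧ s 4 = 1 ∧ s 5 = -1 ∧ s 6 = -1 ∧ s 7 = 1) ∨
    (s 1 = 1 ∧ s 2 = -1 ∧ s 3 = 1 ∧ s 4 = -1 ∧ s 5 = 1 ∧ s 6 = -1 ∧ s 7 = 1) := by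
  simp only [PLb, List.mem_cons, List.not_mem_nil, or_false] at h
  rcases h with rfl | rfl | rfl | rfl | rfl | rfl | rfl | rfl
  · exact Or.inl ⟨rfl, rfl, rfl, rfl, rfl, rfl, rfl⟩
  · exact Or.inr (Or.inl ⟨rfl, rfl, rfl, rfl, rfl, rfl, rfl⟩)
  · exact Or.inr (Or.inr (Or.inl ⟨rfl, rfl, rfl, rfl, rfl, rfl, rfl⟩))
  · exact Or.inr (Or.inr (Or.inr (Or.inl ⟨rfl, rfl, rfl, rfl, rfl, rfl, rfl⟩)))
  · exact Or.inr (Or.inr (Or.inr (Or.inr (Or.inl ⟨rfl, rfl, rfl, rfl, rfl, rfl, rfl⟩))))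
  · exact Or.inr (Or.inr (Or.inr (Or.inr (Or.inr (Or.inl ⟨rfl, rfl, rfl, rfl, rfl, rfl, rfl⟩)))))
  · exact Or.inr (Or.inr (Or.inr (Or.inr (Or.inr (Or.inr (Or.inl ⟨rfl, rfl, rfl, rfl, rfl, rfl, rfl⟩))))))
  · exact Or.inr (Or.inr (Or.inr (Or.inr (Or.inr (Or.inr (Or.inr (⟨rfl, rfl, rfl, rfl, rfl, rfl, rfl⟩)))))))

/-- the first permutation -/
def τ1 : Fin 8 → Fin 8 := ![0, 1, 2, 6, 7, 5, 4, 3]

/-- the second permutation -/
def τ2 : Fin 8 → Fin 8 := ![0, 1, 2, 7, 5, 6, 4, 3]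

theorem v222 (y : Fin 8 → E 5) : q222 y =
        -dt (y 1 - y 0) (y 2 - y 0) (y 3 - y 0) (y 4 - y 0) (y 5 - y 0) +
        dt (y 1 - y 0) (y 2 - y 0) (y 4 - y 0) (y 5 - y 0) (y 6 - y 0) +
        dt (y 1 - y 0) (y 2 - y 0) (y 4 - y 0) (y 6 - y 0) (y 7 - y 0) -
        dt (y 1 - y 0) (y 2 - y 0) (y 5 - y 0) (y 6 - y 0) (y 7 - y 0) -
        dt (y 1 - y 0) (y 3 - y 0) (y 4 - y 0) (y 5 - y 0) (y 6 - y 0) -
        dt (y 1 - y 0) (y 3 - y 0) (y 4 - y 0) (y 6 - y 0) (y 7 - y 0) +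
        dt (y 1 - y 0) (y 3 - y 0) (y 5 - y 0) (y 6 - y 0) (y 7 - y 0) := by
  have s1 : ∀ i j, y i - y j = (y i - y 0) - (y j - y 0) := fun i j => by abel
  unfold q222
  rw [s1 3 2, s1 5 4]
  exact i222 (y 1 - y 0) (y 2 - y 0) (y 3 - y 0) (y 4 - y 0) (y 5 - y 0) (y 6 - y 0) (y 7 - y 0)

theorem v32 (y : Fin 8 → E 5) : q32 y =
        -dt (y 1 - y 0) (y 2 - y 0) (y 3 - y 0) (y 4 - y 0) (y 5 - y 0) -
        dt (y 1 - y 0) (y 2 - y 0) (y 3 - y 0) (y 5 - y 0) (y 6 - y 0) -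
        dt (y 1 - y 0) (y 2 - y 0) (y 3 - y 0) (y 6 - y 0) (y 7 - y 0) +
        dt (y 1 - y 0) (y 2 - y 0) (y 4 - y 0) (y 5 - y 0) (y 6 - y 0) +
        dt (y 1 - y 0) (y 2 - y 0) (y 4 - y 0) (y 6 - y 0) (y 7 - y 0) := by
  have s1 : ∀ i j, y i - y j = (y i - y 0) - (y j - y 0) := fun i j => by abel
  unfold q32
  rw [s1 4 3]
  exact i32 (y 1 - y 0) (y 2 - y 0) (y 3 - y 0) (y 4 - y 0) (y 5 - y 0) (y 6 - y 0) (y 7 - y 0)

theorem v312 (y : Fin 8 → E 5) : q312 y =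
        dt (y 1 - y 0) (y 2 - y 0) (y 3 - y 0) (y 4 - y 0) (y 5 - y 0) -
        dt (y 1 - y 0) (y 2 - y 0) (y 4 - y 0) (y 5 - y 0) (y 6 - y 0) -
        dt (y 1 - y 0) (y 2 - y 0) (y 4 - y 0) (y 6 - y 0) (y 7 - y 0) +
        dt (y 1 - y 0) (y 2 - y 0) (y 5 - y 0) (y 6 - y 0) (y 7 - y 0) := by
  have s1 : ∀ i j, y i - y j = (y i - y 0) - (y j - y 0) := fun i j => by abel
  unfold q312
  rw [s1 5 4]
  exact i312 (y 1 - y 0) (y 2 - y 0) (y 3 - y 0) (y 4 - y 0) (y 5 - y 0) (y 6 - y 0) (y 7 - y 0)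

theorem v2212 (y : Fin 8 → E 5) : q2212 y =
        dt (y 1 - y 0) (y 2 - y 0) (y 3 - y 0) (y 4 - y 0) (y 5 - y 0) -
        dt (y 1 - y 0) (y 2 - y 0) (y 3 - y 0) (y 4 - y 0) (y 6 - y 0) -
        dt (y 1 - y 0) (y 2 - y 0) (y 4 - y 0) (y 5 - y 0) (y 6 - y 0) +
        dt (y 1 - y 0) (y 2 - y 0) (y 5 - y 0) (y 6 - y 0) (y 7 - y 0) +
        dt (y 1 - y 0) (y 3 - y 0) (y 4 - y 0) (y 5 - y 0) (y 6 - y 0) -
        dt (y 1 - y 0) (y 3 - y 0) (y 5 - y 0) (y 6 - y 0) (y 7 - y 0) := by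
  have s1 : ∀ i j, y i - y j = (y i - y 0) - (y j - y 0) := fun i j => by abel
  unfold q2212
  rw [s1 3 2, s1 6 5]
  exact i2212 (y 1 - y 0) (y 2 - y 0) (y 3 - y 0) (y 4 - y 0) (y 5 - y 0) (y 6 - y 0) (y 7 - y 0)

theorem v32t (y : Fin 8 → E 5) : q32 (y ∘ τ1) =
        dt (y 1 - y 0) (y 2 - y 0) (y 3 - y 0) (y 4 - y 0) (y 6 - y 0) -
        dt (y 1 - y 0) (y 2 - y 0) (y 3 - y 0) (y 4 - y 0) (y 7 - y 0) +
        dt (y 1 - y 0) (y 2 - y 0) (y 4 - y 0) (y 5 - y 0) (y 6 - y 0) -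
        dt (y 1 - y 0) (y 2 - y 0) (y 4 - y 0) (y 5 - y 0) (y 7 - y 0) -
        dt (y 1 - y 0) (y 2 - y 0) (y 5 - y 0) (y 6 - y 0) (y 7 - y 0) := by
  have s1 : ∀ i j, y i - y j = (y i - y 0) - (y j - y 0) := fun i j => by abel
  have h : q32 (y ∘ τ1) = dt (y 1 - y 0) (y 2 - y 0) (y 7 - y 6) (y 6 - y 0) (y 5 - y 0) +
      dt (y 1 - y 0) (y 2 - y 0) (y 7 - y 6) (y 5 - y 0) (y 4 - y 0) +
      dt (y 1 - y 0) (y 2 - y 0) (y 7 - y 6) (y 4 - y 0) (y 3 - y 0) := rfl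
  rw [h, s1 7 6]
  exact i32t (y 1 - y 0) (y 2 - y 0) (y 3 - y 0) (y 4 - y 0) (y 5 - y 0) (y 6 - y 0) (y 7 - y 0)

theorem v312t (y : Fin 8 → E 5) : q312 (y ∘ τ2) =
        dt (y 1 - y 0) (y 2 - y 0) (y 3 - y 0) (y 4 - y 0) (y 5 - y 0) -
        dt (y 1 - y 0) (y 2 - y 0) (y 3 - y 0) (y 4 - y 0) (y 6 - y 0) -
        dt (y 1 - y 0) (y 2 - y 0) (y 4 - y 0) (y 5 - y 0) (y 6 - y 0) +
        dt (y 1 - y 0) (y 2 - y 0) (y 5 - y 0) (y 6 - y 0) (y 7 - y 0) := by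
  have s1 : ∀ i j, y i - y j = (y i - y 0) - (y j - y 0) := fun i j => by abel
  have h : q312 (y ∘ τ2) = dt (y 1 - y 0) (y 2 - y 0) (y 6 - y 5) (y 7 - y 0) (y 5 - y 0) +
      dt (y 1 - y 0) (y 2 - y 0) (y 6 - y 5) (y 5 - y 0) (y 4 - y 0) +
      dt (y 1 - y 0) (y 2 - y 0) (y 6 - y 5) (y 4 - y 0) (y 3 - y 0) := rfl
  rw [h, s1 6 5]
  exact i312t (y 1 - y 0) (y 2 - y 0) (y 3 - y 0) (y 4 - y 0) (y 5 - y 0) (y 6 - y 0) (y 7 - y 0)

theorem thm (h1 : G_D1) (h4 : G_D4) : G_FINb := by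
  intro y c s hc hs
  obtain ⟨ha, -, -⟩ := h1 y
  obtain ⟨⟨d12, d13, d14, d15, d16, d17⟩, ⟨d23, d24, d25, d26, d27⟩, ⟨d34, d35, d36, d37⟩,
    ⟨d45, d46, d47⟩, ⟨d56, d57⟩, d67⟩ := h4 y
  have e21 : Dt y 2 1 = -br (y 0) (y 3) (y 4) (y 5) (y 6) (y 7) := by rw [ha, d12]
  have e31 : Dt y 3 1 = br (y 0) (y 2) (y 4) (y 5) (y 6) (y 7) := by rw [ha, d13, neg_neg]
  have e32 : Dt y 3 2 = -br (y 0) (y 1) (y 4) (y 5) (y 6) (y 7) := by rw [ha, d23]
  have e41 : Dt y 4 1 = -br (y 0) (y 2) (y 3) (y 5) (y 6) (y 7) := by rw [ha, d14]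
  have e42 : Dt y 4 2 = br (y 0) (y 1) (y 3) (y 5) (y 6) (y 7) := by rw [ha, d24, neg_neg]
  have e43 : Dt y 4 3 = -br (y 0) (y 1) (y 2) (y 5) (y 6) (y 7) := by rw [ha, d34]
  have e51 : Dt y 5 1 = br (y 0) (y 2) (y 3) (y 4) (y 6) (y 7) := by rw [ha, d15, neg_neg]
  have e52 : Dt y 5 2 = -br (y 0) (y 1) (y 3) (y 4) (y 6) (y 7) := by rw [ha, d25]
  have e53 : Dt y 5 3 = br (y 0) (y 1) (y 2) (y 4) (y 6) (y 7) := by rw [ha, d35, neg_neg]
  have e54 : Dt y 5 4 = -br (y 0) (y 1) (y 2) (y 3) (y 6) (y 7) := by rw [ha, d45]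
  have e61 : Dt y 6 1 = -br (y 0) (y 2) (y 3) (y 4) (y 5) (y 7) := by rw [ha, d16]
  have e62 : Dt y 6 2 = br (y 0) (y 1) (y 3) (y 4) (y 5) (y 7) := by rw [ha, d26, neg_neg]
  have e63 : Dt y 6 3 = -br (y 0) (y 1) (y 2) (y 4) (y 5) (y 7) := by rw [ha, d36]
  have e64 : Dt y 6 4 = br (y 0) (y 1) (y 2) (y 3) (y 5) (y 7) := by rw [ha, d46, neg_neg]
  have e65 : Dt y 6 5 = -br (y 0) (y 1) (y 2) (y 3) (y 4) (y 7) := by rw [ha, d56]
  have e71 : Dt y 7 1 = br (y 0) (y 2) (y 3) (y 4) (y 5) (y 6) := by rw [ha, d17, neg_neg]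
  have e72 : Dt y 7 2 = -br (y 0) (y 1) (y 3) (y 4) (y 5) (y 6) := by rw [ha, d27]
  have e73 : Dt y 7 3 = br (y 0) (y 1) (y 2) (y 4) (y 5) (y 6) := by rw [ha, d37, neg_neg]
  have e74 : Dt y 7 4 = -br (y 0) (y 1) (y 2) (y 3) (y 5) (y 6) := by rw [ha, d47]
  have e75 : Dt y 7 5 = br (y 0) (y 1) (y 2) (y 3) (y 4) (y 6) := by rw [ha, d57, neg_neg]
  have e76 : Dt y 7 6 = -br (y 0) (y 1) (y 2) (y 3) (y 4) (y 5) := by rw [ha, d67]
  unfold br at e21 e31 e32 e41 e42 e43 e51 e52 e53 e54 e61 e62 e63 e64 e65 e71 e72 e73 e74 e75 e76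
  rw [sumT, e21, e31, e32, e41, e42, e43, e51, e52, e53, e54, e61, e62, e63, e64, e65, e71, e72, e73, e74, e75, e76]
  have r222 := abs_le.1 (le_refl |q222 y|)
  have r41 := abs_le.1 (le_refl |q41 (y ∘ id)|)
  have r32 := abs_le.1 (le_refl |q32 (y ∘ id)|)
  have r312 := abs_le.1 (le_refl |q312 (y ∘ id)|)
  have r32t := abs_le.1 (le_refl |q32 (y ∘ τ1)|)
  have r312t := abs_le.1 (le_refl |q312 (y ∘ τ2)|)
  have r2212 := abs_le.1 (le_refl |q2212 (y ∘ id)|)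
  have r7 := abs_le.1 (le_refl |q7 (y ∘ id)|)
  rw [Function.comp_id] at r41 r32 r312 r2212 r7
  rw [v222 y] at r222
  rw [v32 y] at r32
  rw [v312 y] at r312
  rw [v32t y] at r32t
  rw [v312t y] at r312t
  rw [v2212 y] at r2212
  unfold q41 at r41
  unfold q7 at r7
  have n1 : ¬ ((1 : ℝ) = -1) := by norm_num
  have n2 : ¬ ((-1 : ℝ) = 1) := by norm_num
  rcases vals s hs with ⟨k1, k2, k3, k4, k5, k6, k7⟩ |
    ⟨k1, k2, k3, k4, k5, k6, k7⟩ |
    ⟨k1, k2, k3, k4, k5, k6, k7⟩ |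
    ⟨k1, k2, k3, k4, k5, k6, k7⟩ |
    ⟨k1, k2, k3, k4, k5, k6, k7⟩ |
    ⟨k1, k2, k3, k4, k5, k6, k7⟩ |
    ⟨k1, k2, k3, k4, k5, k6, k7⟩ |
    ⟨k1, k2, k3, k4, k5, k6, k7⟩
  · simp only [k1, k2, k3, k4, k5, k6, k7, n1, n2, and_true, and_false, if_true, if_false]
    left; rw [v222]
    rcases hc with rfl | rfl <;> linarith [r222.1, r222.2]
  · simp only [k1, k2, k3, k4, k5, k6, k7, n1, n2, and_true, and_false, if_true, if_false]
    right; refine ⟨id, Or.inl ?_⟩; rw [Function.comp_id]; unfold q41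
    rcases hc with rfl | rfl <;> linarith [r41.1, r41.2]
  · simp only [k1, k2, k3, k4, k5, k6, k7, n1, n2, and_true, and_false, if_true, if_false]
    right; refine ⟨id, Or.inr (Or.inl ?_)⟩; rw [Function.comp_id, v32]
    rcases hc with rfl | rfl <;> linarith [r32.1, r32.2]
  · simp only [k1, k2, k3, k4, k5, k6, k7, n1, n2, and_true, and_false, if_true, if_false]
    right; refine ⟨id, Or.inr (Or.inr (Or.inl ?_))⟩; rw [Function.comp_id, v312]
    rcases hc with rfl | rfl <;> linarith [r312.1, r312.2]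
  · simp only [k1, k2, k3, k4, k5, k6, k7, n1, n2, and_true, and_false, if_true, if_false]
    right; refine ⟨τ2, Or.inr (Or.inr (Or.inl ?_))⟩; rw [v312t]
    rcases hc with rfl | rfl <;> linarith [r312t.1, r312t.2]
  · simp only [k1, k2, k3, k4, k5, k6, k7, n1, n2, and_true, and_false, if_true, if_false]
    right; refine ⟨τ1, Or.inr (Or.inl ?_)⟩; rw [v32t]
    rcases hc with rfl | rfl <;> linarith [r32t.1, r32t.2]
  · simp only [k1, k2, k3, k4, k5, k6, k7, n1, n2, and_true, and_false, if_true, if_false]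
    right; refine ⟨id, Or.inr (Or.inr (Or.inr (Or.inl ?_)))⟩; rw [Function.comp_id, v2212]
    rcases hc with rfl | rfl <;> linarith [r2212.1, r2212.2]
  · simp only [k1, k2, k3, k4, k5, k6, k7, n1, n2, and_true, and_false, if_true, if_false]
    right; refine ⟨id, Or.inr (Or.inr (Or.inr (Or.inr ?_)))⟩; rw [Function.comp_id]; unfold q7
    rcases hc with rfl | rfl <;> linarith [r7.1, r7.2]

end Pool.Agent.Helper76.Vol5.PkFINb
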